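import Mathlib
import Pool.Agent.Helper98K9.Pasc.Main

/-!
# Irreducibility of the even-index Pascalian polynomials

`P_n` is irreducible over `ℚ` for every even `n ≥ 2`.
-/

open Polynomial

namespace Pool.Agent.Results.MP_9fb898_nt.EvenIndexIrreducible

/-- `B(n, k) = C(n, ⌊(n - k) / 2⌋)` (used for `0 ≤ k ≤ n`) -/
def B (n k : ℕ) : ℕ := n.choose ((n - k) / 2)

/-- the `n`-th Pascalian polynomial `P_n(z) = ∑_{k = 0}^{n} B(n, k) z ^ (n - k)` in `ℤ[z]` -/
noncomputable def pascalian (n : ℕ) : ℤ[X] :=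
  ∑ k ∈ Finset.range (n + 1), C (B n k : ℤ) * X ^ (n - k)

open Pool.Agent.Helper98K9.Pasc in
theorem pascalian_eq (m : ℕ) : pascalian (2 * m) = (R m).reverse := by
  ext t
  rw [reverse_coeff]
  unfold pascalian cc
  rw [← Finset.sum_range_reflect]
  have h : ∀ j ∈ Finset.range (2 * m + 1),
      (C (B (2 * m) (2 * m + 1 - 1 - j) : ℤ) * X ^ (2 * m - (2 * m + 1 - 1 - j)) : ℤ[X]) =
        C (((2 * m).choose (j / 2) : ℕ) : ℤ) * X ^ j := by
    intro j hj
    rw [Finset.mem_range] at hj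
    have e1 : 2 * m - (2 * m + 1 - 1 - j) = j := by omega
    rw [e1]
    unfold B
    rw [e1]
  rw [Finset.sum_congr rfl h, finsetSum_coeff]
  simp only [coeff_C_mul_X_pow]
  rw [Finset.sum_ite_eq]
  simp only [Finset.mem_range]
  split_ifs <;> simp

/-- For every even `n ≥ 2` the `n`-th Pascalian polynomial is irreducible over `ℚ`. -/
theorem result : ∀ n : ℕ, Even n → 2 ≤ n →
    Irreducible ((pascalian n).map (Int.castRingHom ℚ)) := by
  intro n hn hn2
  obtain ⟨m, rfl⟩ := hn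
  rw [← two_mul] at hn2 ⊢
  rw [pascalian_eq]
  exact Pool.Agent.Helper98K9.Pasc.rev_irreducible (by omega)

end Pool.Agent.Results.MP_9fb898_nt.EvenIndexIrreducible
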